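import Pool.Agent.R284.RC.Stm

set_option autoImplicit false

namespace Pool.Agent.R860.RC

open MeasureTheory Set Filter Topology
open scoped ENNReal NNReal
open Pool.Agent.R284.RC

/-- energy of a normalised restriction -/
lemma en_nr_le {n : ℕ} {p : ℝ} {μ : Measure (E n)} [IsProbabilityMeasure μ] {R L C : ℝ}
    (hball : μ (Metric.closedBall 0 R)ᶜ = 0) (hL0 : 0 ≤ L)
    (hker : ∀ x ∈ Metric.closedBall (0 : E n) R, ∀ y ∈ Metric.closedBall (0 : E n) R,
      -L ≤ kr p x y)
    (hint : ∀ x, Integrable (fun y => kr p x y) μ)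
    (hC : ∀ x ∈ Metric.closedBall (0 : E n) R, U p μ x + L ≤ C)
    {D : Set (E n)} (hD : MeasurableSet D) (hm : μ D ≠ 0)
    (hpr : IsProbabilityMeasure (nr μ D))
    (hint2 : Integrable (fun x => U p (nr μ D) x) (nr μ D)) :
    En p (nr μ D) (nr μ D) ≤ C / (μ D).toReal := by
  have hmpos : 0 < (μ D).toReal := ENNReal.toReal_pos hm (measure_ne_top _ _)
  have hae : ∀ᵐ y ∂μ, y ∈ Metric.closedBall (0 : E n) R := by
    rw [ae_iff]; exact hball
  have hU : ∀ x ∈ Metric.closedBall (0 : E n) R, U p (nr μ D) x ≤ C / (μ D).toReal := by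
    intro x hx
    have h1 : U p (nr μ D) x = (μ D).toReal⁻¹ * ∫ y in D, kr p x y ∂μ := by
      unfold U nr
      rw [integral_smul_measure, ENNReal.toReal_inv, smul_eq_mul]
    have hintL : Integrable (fun y => kr p x y + L) μ := (hint x).add (integrable_const L)
    have h2 : ∫ y in D, (kr p x y + L) ∂μ ≤ ∫ y, (kr p x y + L) ∂μ := by
      apply setIntegral_le_integral hintL
      filter_upwards [hae] with y hy
      have := hker x hx y hy
      simp only [Pi.zero_apply]
      linarith
    have h3 : ∫ y, (kr p x y + L) ∂μ = U p μ x + L := by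
      rw [integral_add (hint x) (integrable_const L)]
      simp [U]
    have h4 : ∫ y in D, (kr p x y + L) ∂μ = ∫ y in D, kr p x y ∂μ + (μ D).toReal * L := by
      rw [integral_add (hint x).integrableOn (integrable_const L)]
      simp [Measure.real]
    have h5 : ∫ y in D, kr p x y ∂μ ≤ C := by
      have := mul_nonneg hmpos.le hL0
      linarith [hC x hx]
    rw [h1, inv_mul_eq_div]
    exact div_le_div_of_nonneg_right h5 hmpos.le
  have hae2 : ∀ᵐ x ∂(nr μ D), x ∈ Metric.closedBall (0 : E n) R := by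
    rw [ae_iff]
    have : (μ.restrict D) (Metric.closedBall (0 : E n) R)ᶜ = 0 :=
      le_antisymm ((Measure.restrict_apply_le _ _).trans_eq hball) zero_le
    unfold nr
    rw [Measure.smul_apply]
    show (μ D)⁻¹ • (μ.restrict D) (Metric.closedBall (0 : E n) R)ᶜ = 0
    rw [this, smul_zero]
  have h6 : En p (nr μ D) (nr μ D) ≤ ∫ _x, C / (μ D).toReal ∂(nr μ D) := by
    unfold En
    apply integral_mono_ae hint2 (integrable_const _)
    filter_upwards [hae2] with x hx
    exact hU x hx
  simpa using h6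

theorem lusin_proof (h_cls : S_cls) (h_int : S_int) (h_cont : S_cont) (h_gain : S_gain)
    (h_pdR : S_pdR) (h_pdL : S_pdL) : S_lusin := by
  intro n p q hp hpq μ hμ hBP hBS V hV ε hε
  have := hμ
  obtain ⟨R0, hR0⟩ := hBS
  set R := max R0 1 with hR
  have hR1 : 1 ≤ R := le_max_right _ _
  have hball : μ (Metric.closedBall 0 R)ᶜ = 0 :=
    measure_mono_null (compl_subset_compl.mpr
      (Metric.closedBall_subset_closedBall (le_max_left _ _))) hR0
  set L := Real.log (2 * R) with hL
  have hL0 : 0 ≤ L := Real.log_nonneg (by linarith)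
  have hker : ∀ x ∈ Metric.closedBall (0 : E n) R, ∀ y ∈ Metric.closedBall (0 : E n) R,
      -L ≤ kr p x y := by
    intro x hx y hy
    unfold kr
    split_ifs with h0
    · rw [neg_le_neg_iff]
      have hd : dist x y ≤ 2 * R := by
        have := dist_triangle_right x y 0
        rw [Metric.mem_closedBall] at hx hy
        linarith
      rcases eq_or_lt_of_le (dist_nonneg : 0 ≤ dist x y) with h | h
      · rw [← h, Real.log_zero]; exact hL0
      · exact Real.log_le_log h hd
    · have := Real.rpow_nonneg (dist_nonneg : 0 ≤ dist x y) (-p)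
      linarith
  have hcontμ : Continuous (U p μ) := h_cont n p q hp hpq μ inferInstance hBP ⟨R, hball⟩
  obtain ⟨C0, hC0⟩ := (isCompact_closedBall (0 : E n) R).bddAbove_image hcontμ.continuousOn
  have hC0' : ∀ x ∈ Metric.closedBall (0 : E n) R, U p μ x ≤ C0 := fun x hx =>
    hC0 (mem_image_of_mem _ hx)
  set C := max C0 0 + L with hCdef
  have hCnn : 0 ≤ C := add_nonneg (le_max_right _ _) hL0
  have hC : ∀ x ∈ Metric.closedBall (0 : E n) R, U p μ x + L ≤ C := fun x hx => by
    have := (hC0' x hx).trans (le_max_left C0 0)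
    linarith
  have hμC : μ ∈ Cls μ := ⟨hμ, ⟨1, by simp⟩, ⟨R, hball⟩⟩
  obtain ⟨c1, c2, c3, c4, c5⟩ := h_cls n q μ inferInstance
  -- infimum
  set W : Set ℝ := (fun σ => En p σ σ) '' Cls μ with hW
  have hWne : W.Nonempty := ⟨_, μ, hμC, rfl⟩
  have hWbd : BddBelow W := ⟨V, by rintro _ ⟨σ, hσ, rfl⟩; exact hV σ hσ⟩
  set V0 := sInf W with hV0def
  have hV0 : LowV p μ V0 := fun σ hσ => csInf_le hWbd ⟨σ, hσ, rfl⟩
  have hVV0 : V ≤ V0 := le_csInf hWne (by rintro _ ⟨σ, hσ, rfl⟩; exact hV σ hσ)
  set η := ε / 4 with hη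
  have hη0 : 0 < η := by positivity
  set A := C / ε + |V0| + 1 with hA
  have hA0 : 0 < A := by positivity
  set e := min (η / 4) (η ^ 2 / (4 * A)) with he
  have he0 : 0 < e := by positivity
  have he1 : e ≤ η / 4 := min_le_left _ _
  have he2 : e ≤ η ^ 2 / (4 * A) := min_le_right _ _
  have he3 : A ≤ η ^ 2 / (4 * e) := by
    rw [le_div_iff₀ (by positivity)]
    rw [le_div_iff₀ (by positivity)] at he2
    linarith
  -- near optimal measure
  obtain ⟨_, ⟨σ, hσ, rfl⟩, hσe⟩ := exists_lt_of_csInf_lt hWne (lt_add_of_pos_right V0 he0)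
  have hσe' : En p σ σ ≤ V0 + e := hσe.le
  have hσp : IsProbabilityMeasure σ := hσ.1
  have hσBP : BP q σ := c2 hBP σ hσ
  have hσBS : BS σ := hσ.2.2
  have hcontσ : Continuous (U p σ) := h_cont n p q hp hpq σ inferInstance hσBP hσBS
  set D : Set (E n) := {x | U p σ x < V0 - η} with hD
  have hDm : MeasurableSet D := (isOpen_lt hcontσ continuous_const).measurableSet
  have hLB : LB p μ D (V0 + η ^ 2 / (4 * e)) :=
    h_gain n p q hp hpq μ inferInstance hBP V0 hV0 σ hσ D hDm e η he0 (by linarith) hσe'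
      (fun x hx => le_of_lt hx)
  -- mass of D
  have hμD : μ D ≤ ENNReal.ofReal ε := by
    by_contra hcon
    push Not at hcon
    have hne : μ D ≠ 0 := (lt_of_le_of_lt zero_le hcon).ne'
    have hmε : ε < (μ D).toReal := by
      rw [← ENNReal.ofReal_lt_iff_lt_toReal hε.le (measure_ne_top _ _)]
      exact hcon
    obtain ⟨n1, n2⟩ := c3 μ hμC D hDm hne
    obtain ⟨n3, n4, _⟩ := c5 D hDm hne
    have hBSn : BS (nr μ D) := n1.2.2
    have := n3
    obtain ⟨i1, i2, i3⟩ := h_int n p q hp hpq (nr μ D) (nr μ D) inferInstance inferInstance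
      (n4 hBP) hBSn hBSn
    have hint2 : Integrable (fun x => U p (nr μ D) x) (nr μ D) := i1.integral_prod_left
    have hint : ∀ x, Integrable (fun y => kr p x y) μ :=
      (h_int n p q hp hpq μ μ inferInstance inferInstance hBP ⟨R, hball⟩ ⟨R, hball⟩).2.1
    have h1 := en_nr_le hball hL0 hker hint hC hDm hne n3 hint2
    have h2 := hLB (nr μ D) n1 n2
    have h3 : C / (μ D).toReal ≤ C / ε := div_le_div_of_nonneg_left hCnn hε hmε.le
    have h4 := neg_abs_le V0
    linarith
  refine ⟨Metric.closedBall 0 R ∩ {x | V0 - η ≤ U p σ x}, ?_, ?_, ?_⟩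
  · exact (isCompact_closedBall (0 : E n) R).inter_right (isClosed_le continuous_const hcontσ)
  · have hsub : (Metric.closedBall 0 R ∩ {x | V0 - η ≤ U p σ x})ᶜ ⊆
        (Metric.closedBall 0 R)ᶜ ∪ D := by
      intro x hx
      by_cases h : x ∈ Metric.closedBall (0 : E n) R
      · right
        by_contra hxD
        apply hx
        refine ⟨h, ?_⟩
        rw [hD, Set.mem_ofPred_eq, not_lt] at hxD
        exact hxD
      · exact Or.inl h
    refine (measure_mono hsub).trans ((measure_union_le _ _).trans ?_)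
    rw [hball, zero_add]
    exact hμD
  · intro τ hτ hτF hτE
    have := hτ
    have hτball : τ (Metric.closedBall 0 R)ᶜ = 0 :=
      measure_mono_null (compl_subset_compl.mpr inter_subset_left) hτF
    have hτBS : BS τ := ⟨R, hτball⟩
    have hσE : FinEn p σ σ :=
      (h_int n p q hp hpq σ σ inferInstance inferInstance hσBP hσBS hσBS).2.2
    have hpd : 2 * En p τ σ ≤ En p τ τ + En p σ σ := by
      rcases eq_or_lt_of_le hp with h0 | h0
      · subst h0
        exact (h_pdL n τ σ hτ hσp hτBS hσBS hτE hσE).2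
      · exact (h_pdR n p h0 τ σ hτ hσp hτBS hσBS hτE hσE).2
    have hmean : V0 - η ≤ En p τ σ := by
      unfold En
      have hUi : Integrable (fun x => U p σ x) τ :=
        (h_int n p q hp hpq τ σ inferInstance inferInstance hσBP hτBS hσBS).1.integral_prod_left
      have haeτ : ∀ᵐ x ∂τ, x ∈ Metric.closedBall 0 R ∩ {x | V0 - η ≤ U p σ x} := by
        rw [ae_iff]; exact hτF
      have h1 : ∫ _x, (V0 - η) ∂τ ≤ ∫ x, U p σ x ∂τ := by
        apply integral_mono_ae (integrable_const _) hUi
        filter_upwards [haeτ] with x hx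
        exact hx.2
      simpa using h1
    have : 2 * η + e ≤ ε := by
      have : e ≤ ε / 16 := by rw [hη] at he1; linarith
      rw [hη]; linarith
    linarith

end Pool.Agent.R860.RC
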